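import Pool.Agent.helper36.MP.SpecC

/-!
# mp:ENB: a natural map along a ray stays bounded and away from the poles
-/

set_option autoImplicit false

open Complex Metric Set Filter Topology MeasureTheory

noncomputable section

namespace MPS

/-- `z BB z` tends to `∑ g` at infinity. -/
theorem ENB_inf (k : ℕ) [NeZero k] (b g : ZMod k → ℂ) :
    Tendsto (fun z : ℂ => z * BB b g z) (Bornology.cobounded ℂ) (𝓝 (∑ j, g j)) := by
  have h0 : ∀ i : ZMod k, Tendsto (fun z : ℂ => (z - b i)⁻¹) (Bornology.cobounded ℂ) (𝓝 0) := by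
    intro i
    refine tendsto_inv₀_cobounded.comp ?_
    rw [← tendsto_norm_atTop_iff_cobounded]
    have h1 : Tendsto (fun z : ℂ => ‖z‖ + -‖b i‖) (Bornology.cobounded ℂ) atTop :=
      tendsto_atTop_add_const_right _ _ tendsto_norm_cobounded_atTop
    refine tendsto_atTop_mono (fun z => ?_) h1
    have := norm_sub_norm_le z (b i)
    linarith
  have h1 : ∀ i : ZMod k, Tendsto (fun z : ℂ => z * (1 / (z - b i) ^ 2 + g i / (z - b i)))
      (Bornology.cobounded ℂ) (𝓝 (g i)) := by
    intro i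
    have h2 : Tendsto (fun z : ℂ => (1 + b i * (z - b i)⁻¹) * ((z - b i)⁻¹ + g i))
        (Bornology.cobounded ℂ) (𝓝 ((1 + b i * 0) * (0 + g i))) :=
      (((h0 i).const_mul (b i)).const_add 1).mul ((h0 i).add_const (g i))
    have h3 : (1 + b i * 0) * (0 + g i) = g i := by ring
    rw [h3] at h2
    refine h2.congr' ?_
    have h4 : ∀ᶠ z : ℂ in Bornology.cobounded ℂ, ‖b i‖ < ‖z‖ :=
      tendsto_norm_cobounded_atTop.eventually_gt_atTop _
    filter_upwards [h4] with z hz
    have hne : z - b i ≠ 0 := by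
      intro h
      rw [sub_eq_zero.mp h] at hz
      exact lt_irrefl _ hz
    field_simp
    ring
  have h5 := tendsto_finsetSum (Finset.univ : Finset (ZMod k)) fun i _ => h1 i
  refine h5.congr fun z => ?_
  rw [BB, Finset.mul_sum]

/-- lower bound of `BB` at infinity. -/
theorem ENB_inf2 (k : ℕ) [NeZero k] (b g : ZMod k → ℂ) (hg : ∑ j, g j ≠ 0) :
    ∃ M₀ c₀ : ℝ, 1 ≤ M₀ ∧ 0 < c₀ ∧ ∀ z : ℂ, M₀ ≤ ‖z‖ → c₀ < ‖z‖ * ‖BB b g z‖ := by
  have h1 := (ENB_inf k b g).norm
  have h2 : ‖∑ j, g j‖ / 2 < ‖∑ j, g j‖ := by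
    have := norm_pos_iff.mpr hg
    linarith
  have h3 := h1.eventually_const_lt h2
  rw [← comap_norm_atTop, eventually_comap] at h3
  obtain ⟨M, hM⟩ := (eventually_atTop.mp h3)
  refine ⟨max M 1, ‖∑ j, g j‖ / 2, le_max_right _ _, by positivity, fun z hz => ?_⟩
  have := hM ‖z‖ ((le_max_left _ _).trans hz) z rfl
  rwa [norm_mul] at this

/-- lower bound of `BB` near a pole. -/
theorem ENB_pole (k : ℕ) [NeZero k] (b g : ZMod k → ℂ) (hb : Function.Injective b) (j : ZMod k) :
    ∃ η₀ : ℝ, 0 < η₀ ∧ ∀ z : ℂ, z ≠ b j → ‖z - b j‖ ≤ η₀ → 1 / 4 < ‖z - b j‖ ^ 2 * ‖BB b g z‖ := by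
  have h1 : ContinuousAt (fun z : ℂ => 1 + g j * (z - b j) +
      (z - b j) ^ 2 * ∑ i ∈ Finset.univ.erase j, (1 / (z - b i) ^ 2 + g i / (z - b i))) (b j) := by
    refine ContinuousAt.add (by fun_prop) (ContinuousAt.mul (by fun_prop) ?_)
    refine tendsto_finsetSum _ fun i hi => ?_
    have hij : b j - b i ≠ 0 := sub_ne_zero.mpr fun h => Finset.ne_of_mem_erase hi (hb h).symm
    have h2 : ContinuousAt (fun z : ℂ => z - b i) (b j) := by fun_prop
    exact ContinuousAt.add (continuousAt_const.div (h2.pow 2) (pow_ne_zero 2 hij))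
      (continuousAt_const.div h2 hij)
  have h3 := h1.norm.eventually (p := fun x => 1 / 4 < x) (by
    have : ‖1 + g j * (b j - b j) +
      (b j - b j) ^ 2 * ∑ i ∈ Finset.univ.erase j, (1 / (b j - b i) ^ 2 + g i / (b j - b i))‖ = 1 := by
      simp
    beta_reduce
    rw [this]
    exact lt_mem_nhds (by norm_num))
  obtain ⟨ε, hε, h4⟩ := Metric.eventually_nhds_iff.mp h3
  refine ⟨ε / 2, by positivity, fun z hz hz2 => ?_⟩
  have h5 := h4 (y := z) (by rw [dist_eq_norm]; linarith)
  have hne : z - b j ≠ 0 := sub_ne_zero.mpr hz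
  have h6 : (z - b j) ^ 2 * BB b g z = 1 + g j * (z - b j) +
      (z - b j) ^ 2 * ∑ i ∈ Finset.univ.erase j, (1 / (z - b i) ^ 2 + g i / (z - b i)) := by
    rw [BB, ← Finset.add_sum_erase _ _ (Finset.mem_univ j)]
    field_simp
  rw [← h6, norm_mul, norm_pow] at h5
  exact h5

theorem ENB : ENB_stmt := by
  intro k _ b g χ Ω T y hb hg hΩ hnat hray
  obtain ⟨M₀, c₀, hM0, hc0, hinf⟩ := ENB_inf2 k b g hg
  choose η₀ hη₀ hpole using ENB_pole k b g hb
  set γ : ℝ → ℂ := fun t => χ ((t : ℂ) + y * I) with hγ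
  have hd : ∀ t : ℝ, t < T → HasDerivAt γ (deriv χ ((t : ℂ) + y * I)) t := by
    intro t ht
    have h1 := (hnat.diff.differentiableAt (hΩ.mem_nhds (hray t ht))).hasDerivAt
    have h2 : HasDerivAt (fun w : ℂ => χ (w + y * I)) (deriv χ ((t : ℂ) + y * I)) (t : ℂ) := by
      have := h1.comp (t : ℂ) ((hasDerivAt_id (t : ℂ)).add_const ((y : ℂ) * I))
      simpa [Function.comp_def] using this
    exact h2.comp_ofReal
  have heq : ∀ t : ℝ, t < T → ‖deriv χ ((t : ℂ) + y * I)‖ ^ 2 * ‖BB b g (γ t)‖ = 1 := by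
    intro t ht
    have := congrArg norm (hnat.eq _ (hray t ht))
    rwa [norm_mul, norm_pow, norm_one] at this
  have hav : ∀ t : ℝ, t < T → ∀ j, γ t ≠ b j := fun t ht j => hnat.av _ (hray t ht) j
  have hcont : ∀ t₁ : ℝ, t₁ < T → ContinuousOn γ (Icc (T - 1) t₁) := fun t₁ h1 t ht =>
    (hd t (ht.2.trans_lt h1)).continuousAt.continuousWithinAt
  -- upper bound
  set C : ℝ := 1 + 1 / c₀ with hC
  have hC0 : 0 < C := by positivity
  set A : ℝ := M₀ + ‖γ (T - 1)‖ with hA
  have hA0 : 0 < A := by positivity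
  have hup : ∀ t ∈ Ico (T - 1) T, ‖γ t‖ ≤ A * Real.exp C := by
    intro t ht
    have h1 := image_norm_le_of_norm_deriv_right_lt_deriv_boundary (f := γ) (a := T - 1) (b := t)
      (f' := fun s => deriv χ ((s : ℂ) + y * I)) (hcont t ht.2)
      (fun s hs => (hd s (hs.2.trans ht.2)).hasDerivWithinAt)
      (B := fun s => A * Real.exp (C * (s - (T - 1))))
      (B' := fun s => A * (Real.exp (C * (s - (T - 1))) * (C * 1)))
      (by
        show ‖γ (T - 1)‖ ≤ A * Real.exp (C * ((T - 1) - (T - 1)))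
        rw [sub_self, mul_zero, Real.exp_zero, mul_one, hA]
        linarith)
      (fun s => (((((hasDerivAt_id s).sub_const (T - 1)).const_mul C).exp).const_mul A))
      (by
        intro s hs hsB
        have hsT : s < T := hs.2.trans ht.2
        have h2 : M₀ ≤ ‖γ s‖ := by
          rw [hsB]
          have h3 : (1 : ℝ) ≤ Real.exp (C * (s - (T - 1))) := by
            apply Real.one_le_exp
            exact mul_nonneg hC0.le (by linarith [hs.1])
          calc M₀ ≤ A * 1 := by rw [mul_one, hA]; linarith [norm_nonneg (γ (T - 1))]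
            _ ≤ _ := mul_le_mul_of_nonneg_left h3 hA0.le
        have h4 := hinf (γ s) h2
        have h5 := heq s hsT
        have h6 : A * (Real.exp (C * (s - (T - 1))) * (C * 1)) = C * ‖γ s‖ := by
          rw [hsB]; ring
        show ‖deriv χ ((s : ℂ) + y * I)‖ < A * (Real.exp (C * (s - (T - 1))) * (C * 1))
        rw [h6]
        set p : ℝ := ‖deriv χ ((s : ℂ) + y * I)‖ with hp
        set q : ℝ := ‖γ s‖ with hq
        set m : ℝ := ‖BB b g (γ s)‖ with hm
        have hp0 : 0 ≤ p := norm_nonneg _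
        have hq1 : 1 ≤ q := hM0.trans h2
        by_contra hcon
        push Not at hcon
        have h7 : (C * q) ^ 2 ≤ p ^ 2 := by
          have : 0 ≤ C * q := by positivity
          exact pow_le_pow_left₀ this hcon 2
        have hm0 : 0 ≤ m := norm_nonneg _
        have h8 : (C * q) ^ 2 * m ≤ 1 := by
          rw [← h5]
          exact mul_le_mul_of_nonneg_right h7 hm0
        have h9 : (C * q) ^ 2 * m = C ^ 2 * q * (q * m) := by ring
        rw [h9] at h8
        have h10 : C ^ 2 * q * c₀ < C ^ 2 * q * (q * m) :=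
          mul_lt_mul_of_pos_left h4 (by positivity)
        have h11 : 1 ≤ C ^ 2 * q * c₀ := by
          have e1 : C * c₀ = c₀ + 1 := by rw [hC]; field_simp
          have e2 : 1 ≤ C := by rw [hC]; have : 0 < 1 / c₀ := by positivity
                                linarith
          have e3 : C ^ 2 * q * c₀ = C * q * (C * c₀) := by ring
          rw [e3, e1]
          have e4 : 1 ≤ C * q := by nlinarith
          nlinarith
        linarith)
    have h12 := h1 (right_mem_Icc.mpr ht.1)
    refine h12.trans ?_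
    apply mul_le_mul_of_nonneg_left _ hA0.le
    apply Real.exp_le_exp.mpr
    calc C * (t - (T - 1)) ≤ C * 1 := by
          apply mul_le_mul_of_nonneg_left _ hC0.le
          linarith [ht.2]
      _ = C := mul_one _
  -- lower bound
  have hlow : ∀ j : ZMod k, ∀ t ∈ Ico (T - 1) T,
      ‖(γ t - b j)⁻¹‖ ≤ (1 / η₀ j + ‖(γ (T - 1) - b j)⁻¹‖) * Real.exp 3 := by
    intro j t ht
    set Bj : ℝ := 1 / η₀ j + ‖(γ (T - 1) - b j)⁻¹‖ with hBj
    have hη := hη₀ j
    have hBj0 : 0 < Bj := by positivity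
    have hne : ∀ s : ℝ, s < T → γ s - b j ≠ 0 := fun s hs => sub_ne_zero.mpr (hav s hs j)
    have hfd : ∀ s : ℝ, s < T → HasDerivAt (fun s => (γ s - b j)⁻¹)
        (-(deriv χ ((s : ℂ) + y * I)) / (γ s - b j) ^ 2) s := fun s hs =>
      ((hd s hs).sub_const (b j)).inv (hne s hs)
    have h1 := image_norm_le_of_norm_deriv_right_lt_deriv_boundary
      (f := fun s => (γ s - b j)⁻¹) (a := T - 1) (b := t)
      (f' := fun s => -(deriv χ ((s : ℂ) + y * I)) / (γ s - b j) ^ 2)
      (fun s hs => (hfd s (hs.2.trans_lt ht.2)).continuousAt.continuousWithinAt)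
      (fun s hs => (hfd s (hs.2.trans ht.2)).hasDerivWithinAt)
      (B := fun s => Bj * Real.exp (3 * (s - (T - 1))))
      (B' := fun s => Bj * (Real.exp (3 * (s - (T - 1))) * (3 * 1)))
      (by
        show ‖(γ (T - 1) - b j)⁻¹‖ ≤ Bj * Real.exp (3 * ((T - 1) - (T - 1)))
        rw [sub_self, mul_zero, Real.exp_zero, mul_one, hBj]
        have : 0 < 1 / η₀ j := by positivity
        linarith)
      (fun s => (((((hasDerivAt_id s).sub_const (T - 1)).const_mul 3).exp).const_mul Bj))
      (by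
        intro s hs hsB
        have hsT : s < T := hs.2.trans ht.2
        have hq0 : 0 < ‖γ s - b j‖ := norm_pos_iff.mpr (hne s hsT)
        have hsB' : ‖γ s - b j‖⁻¹ = Bj * Real.exp (3 * (s - (T - 1))) := by
          rw [← norm_inv]; exact hsB
        have h2 : ‖γ s - b j‖ ≤ η₀ j := by
          have h3 : (1 : ℝ) ≤ Real.exp (3 * (s - (T - 1))) := by
            apply Real.one_le_exp
            exact mul_nonneg (by norm_num) (by linarith [hs.1])
          have h4 : 1 / η₀ j ≤ ‖γ s - b j‖⁻¹ := by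
            rw [hsB']
            calc 1 / η₀ j ≤ Bj * 1 := by
                  rw [mul_one, hBj]; linarith [norm_nonneg ((γ (T - 1) - b j)⁻¹)]
              _ ≤ _ := mul_le_mul_of_nonneg_left h3 hBj0.le
          rw [one_div] at h4
          exact (inv_le_inv₀ hη hq0).mp h4
        have h4 := hpole j (γ s) (hav s hsT j) h2
        have h5 := heq s hsT
        show ‖-(deriv χ ((s : ℂ) + y * I)) / (γ s - b j) ^ 2‖ <
          Bj * (Real.exp (3 * (s - (T - 1))) * (3 * 1))
        have h6 : Bj * (Real.exp (3 * (s - (T - 1))) * (3 * 1)) = 3 * ‖γ s - b j‖⁻¹ := by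
          rw [hsB']; ring
        rw [h6, norm_div, norm_neg, norm_pow]
        set p : ℝ := ‖deriv χ ((s : ℂ) + y * I)‖ with hp
        set q : ℝ := ‖γ s - b j‖ with hq
        set m : ℝ := ‖BB b g (γ s)‖ with hm
        have hp0 : 0 ≤ p := norm_nonneg _
        have hm0 : 0 ≤ m := norm_nonneg _
        have h7 : p < 3 * q := by
          by_contra hcon
          push Not at hcon
          have h8 : (3 * q) ^ 2 ≤ p ^ 2 := pow_le_pow_left₀ (by positivity) hcon 2
          have h9 : (3 * q) ^ 2 * m ≤ 1 := by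
            rw [← h5]
            exact mul_le_mul_of_nonneg_right h8 hm0
          have h10 : (3 * q) ^ 2 * m = 9 * (q ^ 2 * m) := by ring
          rw [h10] at h9
          linarith
        rw [div_lt_iff₀ (by positivity)]
        have : 3 * q⁻¹ * q ^ 2 = 3 * q := by field_simp
        rw [this]
        exact h7)
    have h12 := h1 (right_mem_Icc.mpr ht.1)
    refine h12.trans ?_
    apply mul_le_mul_of_nonneg_left _ hBj0.le
    apply Real.exp_le_exp.mpr
    linarith [ht.2]
  set L : ZMod k → ℝ := fun j => (1 / η₀ j + ‖(γ (T - 1) - b j)⁻¹‖) * Real.exp 3 with hL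
  have hL0 : ∀ j, 0 < L j := by
    intro j
    have := hη₀ j
    positivity
  set S : ℝ := ∑ j, L j with hS
  have hS0 : 0 < S := Finset.sum_pos (fun j _ => hL0 j) Finset.univ_nonempty
  refine ⟨A * Real.exp C, 1 / S, by positivity, fun t ht => ⟨hup t ht, fun j => ?_⟩⟩
  have h1 := hlow j t ht
  have h2 : L j ≤ S := Finset.single_le_sum (fun i _ => (hL0 i).le) (Finset.mem_univ j)
  have h3 : ‖(γ t - b j)⁻¹‖ ≤ S := h1.trans h2
  rw [norm_inv] at h3
  have hq0 : 0 < ‖γ t - b j‖ := norm_pos_iff.mpr (sub_ne_zero.mpr (hav t ht.2 j))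
  show 1 / S ≤ ‖γ t - b j‖
  rw [one_div]
  exact inv_le_of_inv_le₀ hq0 h3

end MPS
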