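import Pool.Agent.helper36.MP.SpecP

/-!
# mp:P1U: the level functions as functions of `u` near `0`
-/

set_option autoImplicit false

open Complex Metric Set Filter Topology MeasureTheory

noncomputable section

namespace MPS

/-- the divided difference at a simple value has no zero -/
theorem P1U_ds (G : ℂ → ℂ) (r : ℝ) (a : ℂ)
    (hav : ∀ u ∈ ball (0 : ℂ) r, u ≠ 0 → G u ≠ a) (hd : deriv G 0 ≠ 0) (h0 : G 0 = a) :
    ∀ u ∈ ball (0 : ℂ) r, dslope G 0 u ≠ 0 := by
  intro u hu
  by_cases hu0 : u = 0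
  · subst hu0
    rw [dslope_same]
    exact hd
  · rw [dslope_of_ne _ hu0, slope_def_field, h0, sub_zero]
    exact div_ne_zero (sub_ne_zero.mpr (hav u hu hu0)) hu0

/-- removable simple pole -/
theorem P1U_simple (G : ℂ → ℂ) (r : ℝ) (hr : 0 < r) (hG : DifferentiableOn ℂ G (ball 0 r)) (a : ℂ)
    (hav : ∀ u ∈ ball (0 : ℂ) r, u ≠ 0 → G u ≠ a) (hd : deriv G 0 ≠ 0) :
    ∃ H : ℂ → ℂ, DifferentiableOn ℂ H (ball 0 r) ∧ H 0 = 0 ∧
      ∀ u ∈ ball (0 : ℂ) r, u ≠ 0 → H u = (u * deriv G u) ^ 2 * (1 / (G u - a)) := by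
  have hop : IsOpen (ball (0 : ℂ) r) := isOpen_ball
  have hG' : DifferentiableOn ℂ (deriv G) (ball 0 r) := hG.deriv hop
  by_cases h0 : G 0 = a
  · have hh : DifferentiableOn ℂ (dslope G 0) (ball 0 r) :=
      (Complex.differentiableOn_dslope (hop.mem_nhds (mem_ball_self hr))).mpr hG
    have hne := P1U_ds G r a hav hd h0
    refine ⟨fun u => u * deriv G u ^ 2 / dslope G 0 u, ?_, by simp, fun u hu hu0 => ?_⟩
    · exact (differentiableOn_id.mul (hG'.pow 2)).div hh hne
    · have h1 : G u - a ≠ 0 := sub_ne_zero.mpr (hav u hu hu0)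
      show u * deriv G u ^ 2 / dslope G 0 u = _
      rw [dslope_of_ne _ hu0, slope_def_field, h0, sub_zero]
      field_simp
  · refine ⟨fun u => (u * deriv G u) ^ 2 * (1 / (G u - a)), ?_, by simp, fun u hu hu0 => rfl⟩
    have hne : ∀ u ∈ ball (0 : ℂ) r, G u - a ≠ 0 := by
      intro u hu
      by_cases hu0 : u = 0
      · subst hu0
        exact sub_ne_zero.mpr h0
      · exact sub_ne_zero.mpr (hav u hu hu0)
    exact ((differentiableOn_id.mul hG').pow 2).mul
      ((differentiableOn_const 1).div (hG.sub (differentiableOn_const a)) hne)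

/-- removable double pole -/
theorem P1U_double (G : ℂ → ℂ) (r : ℝ) (hr : 0 < r) (hG : DifferentiableOn ℂ G (ball 0 r)) (a : ℂ)
    (hav : ∀ u ∈ ball (0 : ℂ) r, u ≠ 0 → G u ≠ a) (hd : deriv G 0 ≠ 0) :
    ∃ H : ℂ → ℂ, DifferentiableOn ℂ H (ball 0 r) ∧ (G 0 = a → H 0 = 1) ∧ (G 0 ≠ a → H 0 = 0) ∧
      ∀ u ∈ ball (0 : ℂ) r, u ≠ 0 → H u = (u * deriv G u) ^ 2 * (1 / (G u - a) ^ 2) := by
  have hop : IsOpen (ball (0 : ℂ) r) := isOpen_ball
  have hG' : DifferentiableOn ℂ (deriv G) (ball 0 r) := hG.deriv hop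
  by_cases h0 : G 0 = a
  · have hh : DifferentiableOn ℂ (dslope G 0) (ball 0 r) :=
      (Complex.differentiableOn_dslope (hop.mem_nhds (mem_ball_self hr))).mpr hG
    have hne := P1U_ds G r a hav hd h0
    refine ⟨fun u => deriv G u ^ 2 / dslope G 0 u ^ 2, ?_, fun _ => ?_, fun h => absurd h0 h,
      fun u hu hu0 => ?_⟩
    · exact (hG'.pow 2).div (hh.pow 2) fun u hu => pow_ne_zero 2 (hne u hu)
    · show deriv G 0 ^ 2 / dslope G 0 0 ^ 2 = 1
      rw [dslope_same]
      exact div_self (pow_ne_zero 2 hd)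
    · have h1 : G u - a ≠ 0 := sub_ne_zero.mpr (hav u hu hu0)
      show deriv G u ^ 2 / dslope G 0 u ^ 2 = _
      rw [dslope_of_ne _ hu0, slope_def_field, h0, sub_zero]
      field_simp
  · refine ⟨fun u => (u * deriv G u) ^ 2 * (1 / (G u - a) ^ 2), ?_, fun h => absurd h h0,
      fun _ => by simp, fun u hu hu0 => rfl⟩
    have hne : ∀ u ∈ ball (0 : ℂ) r, (G u - a) ^ 2 ≠ 0 := by
      intro u hu
      by_cases hu0 : u = 0
      · subst hu0
        exact pow_ne_zero 2 (sub_ne_zero.mpr h0)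
      · exact pow_ne_zero 2 (sub_ne_zero.mpr (hav u hu hu0))
    exact ((differentiableOn_id.mul hG').pow 2).mul
      ((differentiableOn_const 1).div ((hG.sub (differentiableOn_const a)).pow 2) hne)

theorem P1U_om (n : ℕ) (hn : 2 ≤ n) : IsPrimitiveRoot (om n) n :=
  Complex.isPrimitiveRoot_exp n (by omega)

theorem P1U_omn (n : ℕ) (hn : 2 ≤ n) (j : ℕ) (y : ℂ) : (om n ^ j * y) ^ n = y ^ n := by
  rw [mul_pow, ← pow_mul, mul_comm j n, pow_mul, (P1U_om n hn).pow_eq_one, one_pow, one_mul]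

theorem P1U_exp (A : ℝ) (w : ℂ) (hw : w ∈ HP A) : Complex.exp w ∈ ball (0 : ℂ) (Real.exp (-A)) := by
  rw [mem_ball_zero_iff, Complex.norm_exp]
  exact Real.exp_lt_exp.mpr hw

theorem P1U_GW (G : ℕ → ℂ → ℂ) (q : ℕ) (A : ℝ)
    (hG : DifferentiableOn ℂ (G q) (ball 0 (Real.exp (-A)))) (w : ℂ) (hw : w ∈ HP A) :
    deriv (GW G q) w = Complex.exp w * deriv (G q) (Complex.exp w) := by
  have h1 : HasDerivAt (G q) (deriv (G q) (Complex.exp w)) (Complex.exp w) :=
    (hG.differentiableAt (isOpen_ball.mem_nhds (P1U_exp A w hw))).hasDerivAt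
  have h2 := h1.comp w (Complex.hasDerivAt_exp w)
  have h3 : HasDerivAt (GW G q) (deriv (G q) (Complex.exp w) * Complex.exp w) w := h2
  rw [h3.deriv, mul_comm]

theorem P1U_prod (k : ℕ) [NeZero k] (F : ZMod k → ℂ) :
    ∏ p ∈ Finset.range k, F (-((p + 1 : ℕ) : ZMod k)) = ∏ i, F i := by
  refine Finset.prod_nbij' (fun p => (-((p + 1 : ℕ) : ZMod k))) (fun x => (-x - 1 : ZMod k).val)
    ?_ ?_ ?_ ?_ ?_
  · intro p _
    exact Finset.mem_univ _
  · intro x _
    exact Finset.mem_range.mpr (ZMod.val_lt _)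
  · intro p hp
    have hp' : p < k := Finset.mem_range.mp hp
    have : (-(-((p + 1 : ℕ) : ZMod k)) - 1 : ZMod k) = ((p : ℕ) : ZMod k) := by
      push_cast
      ring
    show (-(-((p + 1 : ℕ) : ZMod k)) - 1 : ZMod k).val = p
    rw [this, ZMod.val_natCast_of_lt hp']
  · intro x _
    show (-(((-x - 1 : ZMod k).val + 1 : ℕ) : ZMod k)) = x
    rw [Nat.cast_add, ZMod.natCast_zmod_val]
    push_cast
    ring
  · intro p _
    rfl

theorem P1U : P1U_stmt := by
  intro n k _ c b g ψ R ε δ A G Q h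
  have hn : 2 ≤ n := h.su.hn
  have hc := h.su.cyc
  have hsys := h.sys
  have hpn := (h.su.mx 0).pn
  -- the cutoffs
  have hA0 : 0 ≤ A 0 := by
    have := hsys.a0
    have := h.d0
    linarith
  have hball : ∀ q < Q, ball (0 : ℂ) (Real.exp (-A (q + 1))) ⊆ ball 0 (Real.exp (-A q)) := by
    intro q hq
    exact ball_subset_ball (Real.exp_le_exp.mpr (neg_le_neg (hsys.mono q hq)))
  have hb0 : ball (0 : ℂ) (Real.exp (-A 0)) ⊆ ball 0 1 := by
    refine ball_subset_ball ?_
    rw [← Real.exp_zero]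
    exact Real.exp_le_exp.mpr (by linarith)
  have hr : ∀ q, 0 < Real.exp (-A q) := fun q => Real.exp_pos _
  -- holomorphy
  have hdiff : ∀ q ≤ Q, DifferentiableOn ℂ (G q) (ball 0 (Real.exp (-A q))) := by
    intro q hq
    rcases Nat.eq_zero_or_pos q with h0 | h0
    · subst h0
      rw [hsys.g0]
      exact hpn.diff.mono hb0
    · exact hsys.diff q h0 hq
  -- avoidance
  have hav : ∀ q ≤ Q, ∀ u ∈ ball (0 : ℂ) (Real.exp (-A q)), u ≠ 0 → ∀ m, G q u ≠ b m := by
    intro q
    induction q with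
    | zero =>
      intro _ u hu hu0 m
      rw [hsys.g0]
      exact hpn.av u (hb0 hu) hu0 m
    | succ q ih =>
      intro hq u hu hu0 m hm
      have h1 := (hsys.rel q hq u hu).1
      rw [hm, hc.step m] at h1
      exact ih (by omega) u (hball q hq hu) hu0 (m + 1) h1.symm
  -- derivatives
  have hrel : ∀ q < Q, deriv (G q) 0 = fd n (b (-((q + 1 : ℕ) : ZMod k))) * deriv (G (q + 1)) 0 := by
    intro q hq
    have h1 : HasDerivAt (G (q + 1)) (deriv (G (q + 1)) 0) 0 :=
      ((hdiff (q + 1) hq).differentiableAt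
        (isOpen_ball.mem_nhds (mem_ball_self (hr (q + 1))))).hasDerivAt
    have h2 := (h1.pow n).add_const c
    have h3 : (fun u => G (q + 1) u ^ n + c) =ᶠ[𝓝 (0 : ℂ)] G q := by
      filter_upwards [isOpen_ball.mem_nhds (mem_ball_self (hr (q + 1)))] with u hu
      exact (hsys.rel q hq u hu).1
    have h4 := h3.deriv_eq
    have h5 : deriv (fun u => G (q + 1) u ^ n + c) 0 =
        (n : ℂ) * G (q + 1) 0 ^ (n - 1) * deriv (G (q + 1)) 0 := h2.deriv
    rw [← h4, h5, hsys.val (q + 1) hq, fd]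
  have hder : ∀ q ≤ Q, deriv (G q) 0 ≠ 0 := by
    intro q
    induction q with
    | zero =>
      intro _
      rw [hsys.g0]
      exact hpn.der
    | succ q ih =>
      intro hq h0
      apply ih (by omega)
      rw [hrel q hq, h0, mul_zero]
  -- the values at `0`
  have hval : ∀ q ≤ Q, G q 0 = b (-(q : ZMod k)) := hsys.val
  refine ⟨?_, ?_, ?_, hder, ?_⟩
  · -- `bet`
    intro q hq1 hqQ j hj
    obtain ⟨hj1, hj2⟩ := Finset.mem_Ico.mp hj
    obtain ⟨q', rfl⟩ : ∃ q', q = q' + 1 := ⟨q - 1, by omega⟩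
    have hne : ∀ u ∈ ball (0 : ℂ) (Real.exp (-A (q' + 1))), ∀ m, om n ^ j * G (q' + 1) u ≠ b m := by
      intro u hu m hm
      have h1 := (hsys.rel q' hqQ u hu).1
      have h2 : G q' u = b (m + 1) := by
        rw [← h1, ← P1U_omn n hn j, hm, hc.step m]
      by_cases hu0 : u = 0
      · subst hu0
        rw [hval q' (by omega)] at h2
        have h3 := hc.inj h2
        have h4 : m = -((q' + 1 : ℕ) : ZMod k) := by
          have : m = (m + 1) - 1 := by ring
          rw [this, ← h3]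
          push_cast
          ring
        rw [hval (q' + 1) hqQ, h4] at hm
        have h5 : om n ^ j = 1 := by
          have h6 := hc.ne0 (-((q' + 1 : ℕ) : ZMod k))
          exact mul_right_cancel₀ h6 (by rw [hm, one_mul])
        exact (P1U_om n hn).pow_ne_one_of_pos_of_lt (by omega) hj2 h5
      · exact hav q' (by omega) u (hball q' hqQ hu) hu0 (m + 1) h2
    refine ⟨fun u => (om n ^ j) ^ 2 * (u * deriv (G (q' + 1)) u) ^ 2 *
      BB b g (om n ^ j * G (q' + 1) u), ?_, by simp, fun w hw => ?_⟩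
    · have hG := hdiff (q' + 1) hqQ
      have hG' : DifferentiableOn ℂ (deriv (G (q' + 1))) (ball 0 (Real.exp (-A (q' + 1)))) :=
        hG.deriv isOpen_ball
      have hBB : DifferentiableOn ℂ (fun u => BB b g (om n ^ j * G (q' + 1) u))
          (ball 0 (Real.exp (-A (q' + 1)))) := by
        unfold BB
        refine DifferentiableOn.fun_sum fun i _ => ?_
        have h1 : DifferentiableOn ℂ (fun u => om n ^ j * G (q' + 1) u - b i)
            (ball 0 (Real.exp (-A (q' + 1)))) :=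
          ((differentiableOn_const _).mul hG).sub (differentiableOn_const _)
        have h2 : ∀ u ∈ ball (0 : ℂ) (Real.exp (-A (q' + 1))),
            om n ^ j * G (q' + 1) u - b i ≠ 0 := fun u hu => sub_ne_zero.mpr (hne u hu i)
        exact ((differentiableOn_const _).div (h1.pow 2) fun u hu => pow_ne_zero 2 (h2 u hu)).add
          ((differentiableOn_const _).div h1 h2)
      exact ((differentiableOn_const _).mul ((differentiableOn_id.mul hG').pow 2)).mul hBB
    · show bet n b g (GW G) (q' + 1) j w = _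
      unfold bet
      rw [P1U_GW G (q' + 1) (A (q' + 1)) (hdiff (q' + 1) hqQ) w hw]
      rfl
  · -- `eef`
    intro q hq1 hqQ
    obtain ⟨q', rfl⟩ : ∃ q', q = q' + 1 := ⟨q - 1, by omega⟩
    have hG : DifferentiableOn ℂ (G q') (ball 0 (Real.exp (-A (q' + 1)))) :=
      (hdiff q' (by omega)).mono (hball q' hqQ)
    have hs : ∀ a : ℂ, (∀ u ∈ ball (0 : ℂ) (Real.exp (-A (q' + 1))), u ≠ 0 → G q' u ≠ a) →
        ∃ H : ℂ → ℂ, DifferentiableOn ℂ H (ball 0 (Real.exp (-A (q' + 1)))) ∧ H 0 = 0 ∧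
          ∀ u ∈ ball (0 : ℂ) (Real.exp (-A (q' + 1))), u ≠ 0 →
            H u = (u * deriv (G q') u) ^ 2 * (1 / (G q' u - a)) := fun a ha =>
      P1U_simple (G q') _ (hr _) hG a ha (hder q' (by omega))
    have hav' : ∀ i : ZMod k, ∀ u ∈ ball (0 : ℂ) (Real.exp (-A (q' + 1))), u ≠ 0 →
        G q' u ≠ b (i + 1) := fun i u hu hu0 =>
      hav q' (by omega) u (hball q' hqQ hu) hu0 (i + 1)
    choose H1 hH1 hH10 hH1e using fun i : ZMod k => hs (b (i + 1)) (hav' i)
    obtain ⟨H2, hH2, hH20, hH2e⟩ := hs c (by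
      intro u hu _ hcu
      obtain ⟨h1, h2⟩ := hsys.rel q' hqQ u hu
      rw [hcu] at h1
      have h3 : G (q' + 1) u ^ n = 0 := by linear_combination h1
      exact h2 (pow_eq_zero_iff (by omega : n ≠ 0) |>.mp h3))
    refine ⟨fun u => (∑ i, (g (i + 1) - g i / fd n (b i) + fdd n (b i) / fd n (b i) ^ 2) * H1 i u) +
      (∑ i, (g i / fd n (b i) - fdd n (b i) / fd n (b i) ^ 2)) * H2 u, ?_, ?_, fun w hw => ?_⟩
    · exact (DifferentiableOn.fun_sum fun i _ => (differentiableOn_const _).mul (hH1 i)).add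
        ((differentiableOn_const _).mul hH2)
    · simp [hH10, hH20]
    · have hu := P1U_exp (A (q' + 1)) w hw
      have hu0 : Complex.exp w ≠ 0 := Complex.exp_ne_zero w
      have e1 : q' + 1 - 1 = q' := rfl
      rw [e1]
      unfold eef er
      rw [P1U_GW G q' (A (q' + 1)) hG w hw]
      show (Complex.exp w * deriv (G q') (Complex.exp w)) ^ 2 *
        ((∑ i, (g (i + 1) - g i / fd n (b i) + fdd n (b i) / fd n (b i) ^ 2) /
          (G q' (Complex.exp w) - b (i + 1))) +
          (∑ i, (g i / fd n (b i) - fdd n (b i) / fd n (b i) ^ 2)) / (G q' (Complex.exp w) - c)) =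
        (∑ i, (g (i + 1) - g i / fd n (b i) + fdd n (b i) / fd n (b i) ^ 2) *
          H1 i (Complex.exp w)) +
        (∑ i, (g i / fd n (b i) - fdd n (b i) / fd n (b i) ^ 2)) * H2 (Complex.exp w)
      rw [mul_add, Finset.mul_sum, hH2e _ hu hu0]
      congr 1
      · refine Finset.sum_congr rfl fun i _ => ?_
        rw [hH1e i _ hu hu0]
        ring
      · ring
  · -- `tau`
    intro q hqQ
    have hG := hdiff q hqQ
    choose H1 hH1 hH10 hH1e using fun i : ZMod k => P1U_simple (G q) _ (hr q) hG (b i)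
      (fun u hu hu0 => hav q hqQ u hu hu0 i) (hder q hqQ)
    choose H2 hH2 hH21 hH20 hH2e using fun i : ZMod k => P1U_double (G q) _ (hr q) hG (b i)
      (fun u hu hu0 => hav q hqQ u hu hu0 i) (hder q hqQ)
    refine ⟨fun u => ∑ i, (H2 i u + g i * H1 i u), ?_, ?_, fun w hw => ?_⟩
    · exact DifferentiableOn.fun_sum fun i _ => (hH2 i).add ((differentiableOn_const _).mul (hH1 i))
    · show ∑ i, (H2 i 0 + g i * H1 i 0) = 1
      rw [Finset.sum_eq_single (-(q : ZMod k))]
      · rw [hH10, hH21 _ (hval q hqQ)]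
        ring
      · intro i _ hi
        rw [hH10, hH20 i (by
          rw [hval q hqQ]
          intro he
          exact hi (hc.inj he).symm)]
        ring
      · intro hi
        exact absurd (Finset.mem_univ _) hi
    · have hu := P1U_exp (A q) w hw
      have hu0 : Complex.exp w ≠ 0 := Complex.exp_ne_zero w
      unfold tau BB
      rw [P1U_GW G q (A q) hG w hw]
      show (Complex.exp w * deriv (G q) (Complex.exp w)) ^ 2 *
        (∑ i, (1 / (G q (Complex.exp w) - b i) ^ 2 + g i / (G q (Complex.exp w) - b i))) =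
        ∑ i, (H2 i (Complex.exp w) + g i * H1 i (Complex.exp w))
      rw [Finset.mul_sum]
      refine Finset.sum_congr rfl fun i _ => ?_
      rw [hH1e i _ hu hu0, hH2e i _ hu hu0]
      ring
  · -- the derivative after one turn
    intro hQk
    have key : ∀ q ≤ Q, deriv (ψ 0) 0 =
        (∏ p ∈ Finset.range q, fd n (b (-((p + 1 : ℕ) : ZMod k)))) * deriv (G q) 0 := by
      intro q
      induction q with
      | zero =>
        intro _
        rw [Finset.prod_range_zero, one_mul, hsys.g0]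
      | succ q ih =>
        intro hq
        rw [ih (by omega), hrel q hq, Finset.prod_range_succ]
        ring
    have h1 := key Q le_rfl
    have h2 : (∏ p ∈ Finset.range Q, fd n (b (-((p + 1 : ℕ) : ZMod k)))) = rho n b := by
      rw [hQk]
      exact P1U_prod k (fun i => fd n (b i))
    rw [h2] at h1
    have h3 : rho n b ≠ 0 := by
      intro h0
      have := h.su.rho1
      rw [h0, norm_zero] at this
      linarith
    rw [h1]
    field_simp

end MPS
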