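import Pool.Agent.helper36.MP.SpecQ

/-!
# mp:STEP2: one more level in Phase 2
-/

set_option autoImplicit false

open Complex Metric Set Filter Topology MeasureTheory

noncomputable section

namespace MPS

theorem STEP2 (hLR : LR_stmt) : STEP2_stmt := by
  intro n k _ c b g ψ R ε y ρ₁ χ G1 ps T G Q h hQk hmeas
  have hn : 2 ≤ n := h.su2.su.hn
  have hρ : 0 < ρ₁ := h.su2.r0
  have hsys := h.sys
  set x : ℂ := (y : ℂ) * I with hx
  set w₀ : ℂ := x - ρ₁ / 4 with hw₀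
  set S : Set ℝ := {r | 3 * ρ₁ / 4 < r ∧ r ≤ T Q ∧ ¬ Fail2 c y ρ₁ χ ps G Q r} with hS
  have hlow : 3 * ρ₁ / 4 < T Q := hsys.low Q le_rfl
  have hSne : S.Nonempty := by
    by_contra hne
    rw [Set.not_nonempty_iff_eq_empty] at hne
    have h1 := hmeas (3 * ρ₁ / 4) le_rfl hlow.le (by
      intro r hr1 hr2
      by_contra hf
      have : r ∈ S := ⟨hr1, hr2.le, hf⟩
      rw [hne] at this
      exact this)
    exact lt_irrefl _ h1
  have hSb : BddAbove S := ⟨T Q, fun r hr => hr.2.1⟩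
  set t' : ℝ := sSup S with ht'
  have ht1 : t' ≤ T Q := csSup_le hSne fun r hr => hr.2.1
  have ht2 : 3 * ρ₁ / 4 < t' := by
    obtain ⟨r, hr⟩ := hSne
    exact lt_of_lt_of_le hr.1 (le_csSup hSb hr)
  have hnf : ¬ Fail2 c y ρ₁ χ ps G Q t' := by
    rintro (⟨h1, h2, h3⟩ | h3)
    · rw [Set.not_disjoint_iff] at h3
      obtain ⟨z, ⟨w, hw, hwz⟩, hz⟩ := h3
      rw [mem_ball] at hw
      obtain ⟨r, hr, hwr⟩ := exists_lt_of_lt_csSup hSne hw
      exact hr.2.2 (Or.inl ⟨h1, h2, Set.not_disjoint_iff.mpr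
        ⟨z, ⟨w, mem_ball.mpr hwr, hwz⟩, hz⟩⟩)
    · obtain ⟨w, hw, hwz⟩ := h3
      rw [mem_ball] at hw
      obtain ⟨r, hr, hwr⟩ := exists_lt_of_lt_csSup hSne hw
      exact hr.2.2 (Or.inr ⟨w, mem_ball.mpr hwr, hwz⟩)
  have hfail : ∀ r, t' < r → r < T Q → Fail2 c y ρ₁ χ ps G Q r := by
    intro r hr1 hr2
    by_contra hf
    exact absurd (le_csSup hSb (show r ∈ S from ⟨ht2.trans hr1, hr2.le, hf⟩)) (not_le.mpr hr1)
  have hnc : ∀ w ∈ ball x t', G Q w ≠ c := fun w hw hwc => hnf (Or.inr ⟨w, hw, hwc⟩)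
  have hnd : 1 ≤ Q → Q ≠ ps → Disjoint (G Q '' ball x t') (χ '' ball x ρ₁) := by
    intro h1 h2
    by_contra h3
    exact hnf (Or.inl ⟨h1, h2, h3⟩)
  -- the base point
  have hw0 : ‖w₀ - x‖ = ρ₁ / 4 := by
    rw [hw₀]
    have : x - (ρ₁ : ℂ) / 4 - x = -((ρ₁ / 4 : ℝ) : ℂ) := by push_cast; ring
    rw [this, norm_neg, Complex.norm_real, Real.norm_of_nonneg (by positivity)]
  have hw0b : w₀ ∈ ball x t' := by
    rw [mem_ball, dist_eq_norm, hw0]
    linarith
  have hu0 : Complex.exp w₀ ∈ ball (0 : ℂ) (Real.exp (-(3 * (ρ₁ / 64)))) := by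
    rw [mem_ball_zero_iff, Complex.norm_exp]
    apply Real.exp_lt_exp.mpr
    have : w₀.re = -(ρ₁ / 4) := by
      rw [hw₀, hx]
      have : ((ρ₁ : ℂ) / 4) = ((ρ₁ / 4 : ℝ) : ℂ) := by push_cast; ring
      rw [this]
      simp
    rw [this]
    linarith
  obtain ⟨hrel1, hrel2⟩ := h.su2.s1.rel Q hQk (Complex.exp w₀) hu0
  have hvalQ : G Q w₀ = G1 Q (Complex.exp w₀) := hsys.val Q le_rfl
  have hdQ : DifferentiableOn ℂ (G Q) (ball x t') :=
    (hsys.diff Q le_rfl).mono (ball_subset_ball ht1)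
  obtain ⟨g', hg1, hg2, hg3⟩ := hLR n (ball x t') (fun w => G Q w - c) w₀ (G1 (Q + 1) (Complex.exp w₀))
    (by omega) isOpen_ball (convex_ball _ _) (hdQ.sub (differentiableOn_const c))
    (fun w hw => sub_ne_zero.mpr (hnc w hw)) hw0b (by
      show G1 (Q + 1) (Complex.exp w₀) ^ n = G Q w₀ - c
      rw [hvalQ, ← hrel1]
      ring)
  have hT : ∀ q ≤ Q, Function.update T (Q + 1) t' q = T q := fun q hq =>
    Function.update_of_ne (by omega) _ _
  have hTn : Function.update T (Q + 1) t' (Q + 1) = t' := Function.update_self _ _ _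
  have hG : ∀ q ≤ Q, Function.update G (Q + 1) g' q = G q := fun q hq =>
    Function.update_of_ne (by omega) _ _
  have hGn : Function.update G (Q + 1) g' (Q + 1) = g' := Function.update_self _ _ _
  refine ⟨t', g', ⟨h.su2, ⟨?_, ?_, ?_, ?_, ?_, ?_, ?_, ?_⟩, hQk⟩, hfail⟩
  · rw [hT 0 (by omega)]
    exact hsys.t0
  · intro q hq
    rcases Nat.lt_succ_iff_lt_or_eq.mp hq with hq' | hq'
    · rw [hT q hq'.le, hT (q + 1) hq']
      exact hsys.anti q hq'
    · subst hq'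
      rw [hT q le_rfl, hTn]
      exact ht1
  · intro q hq
    rcases Nat.le_succ_iff.mp hq with hq' | hq'
    · rw [hT q hq']
      exact hsys.low q hq'
    · subst hq'
      rw [hTn]
      exact ht2
  · rw [hG 0 (by omega)]
    exact hsys.g0
  · intro q hq
    rcases Nat.le_succ_iff.mp hq with hq' | hq'
    · rw [hT q hq', hG q hq']
      exact hsys.diff q hq'
    · subst hq'
      rw [hTn, hGn]
      exact hg1
  · intro q hq w hw
    rcases Nat.lt_succ_iff_lt_or_eq.mp hq with hq' | hq'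
    · rw [hT (q + 1) hq'] at hw
      rw [hG q hq'.le, hG (q + 1) hq']
      exact hsys.rel q hq' w hw
    · subst hq'
      rw [hTn] at hw
      rw [hG q le_rfl, hGn]
      have h1 : g' w ^ n = G q w - c := hg3 w hw
      refine ⟨by rw [h1]; ring, fun h0 => ?_⟩
      rw [h0, zero_pow (by omega)] at h1
      exact hnc w hw (sub_eq_zero.mp h1.symm)
  · intro q hq
    rcases Nat.le_succ_iff.mp hq with hq' | hq'
    · rw [hG q hq']
      exact hsys.val q hq'
    · subst hq'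
      rw [hGn]
      exact hg2
  · intro q hq1 hq hqp
    rcases Nat.lt_succ_iff_lt_or_eq.mp hq with hq' | hq'
    · rw [hT (q + 1) hq', hG q hq'.le]
      exact hsys.disj q hq1 hq' hqp
    · subst hq'
      rw [hTn, hG q le_rfl]
      exact hnd hq1 hqp

end MPS
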