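import Pool.Agent.helper36.MP.SpecN

/-!
# mp:TR: shift of the base point of the cycle
-/

set_option autoImplicit false

open Complex Metric Set Filter Topology MeasureTheory

noncomputable section

namespace MPS

theorem TR_BB (k : ℕ) [NeZero k] (b g : ZMod k → ℂ) (i : ZMod k) (z : ℂ) :
    BB (fun j => b (i + j)) (fun j => g (i + j)) z = BB b g z := by
  unfold BB
  exact Equiv.sum_comp (Equiv.addLeft i) (fun j => 1 / (z - b j) ^ 2 + g j / (z - b j))

theorem TR_er (n k : ℕ) [NeZero k] (c : ℂ) (b g : ZMod k → ℂ) (i : ZMod k) (z : ℂ) :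
    er n c (fun j => b (i + j)) (fun j => g (i + j)) z = er n c b g z := by
  unfold er
  have h1 : (∑ j, (g (i + (j + 1)) - g (i + j) / fd n (b (i + j)) +
      fdd n (b (i + j)) / fd n (b (i + j)) ^ 2) / (z - b (i + (j + 1)))) =
      ∑ j, (g (j + 1) - g j / fd n (b j) + fdd n (b j) / fd n (b j) ^ 2) / (z - b (j + 1)) := by
    rw [← Equiv.sum_comp (Equiv.addLeft i) (fun j => (g (j + 1) - g j / fd n (b j) +
      fdd n (b j) / fd n (b j) ^ 2) / (z - b (j + 1)))]
    refine Finset.sum_congr rfl fun j _ => ?_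
    simp only [Equiv.coe_addLeft, add_assoc]
  have h2 : (∑ j, (g (i + j) / fd n (b (i + j)) - fdd n (b (i + j)) / fd n (b (i + j)) ^ 2)) =
      ∑ j, (g j / fd n (b j) - fdd n (b j) / fd n (b j) ^ 2) :=
    Equiv.sum_comp (Equiv.addLeft i) (fun j => g j / fd n (b j) - fdd n (b j) / fd n (b j) ^ 2)
  rw [h1, h2]

theorem TR_rho (n k : ℕ) [NeZero k] (b : ZMod k → ℂ) (i : ZMod k) :
    rho n (fun j => b (i + j)) = rho n b := by
  unfold rho
  exact Equiv.prod_comp (Equiv.addLeft i) (fun j => fd n (b j))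

theorem TR_nat (k : ℕ) [NeZero k] (b g : ZMod k → ℂ) (i : ZMod k) (χ : ℂ → ℂ) (Ω : Set ℂ) :
    IsNat (fun j => b (i + j)) (fun j => g (i + j)) χ Ω ↔ IsNat b g χ Ω := by
  constructor
  · intro h
    refine ⟨h.diff, fun w hw j => ?_, fun w hw => ?_⟩
    · have := h.av w hw (-i + j)
      simpa using this
    · have := h.eq w hw
      rwa [TR_BB] at this
  · intro h
    refine ⟨h.diff, fun w hw j => h.av w hw (i + j), fun w hw => ?_⟩
    rw [TR_BB]
    exact h.eq w hw

theorem TR_PN (k : ℕ) [NeZero k] (b g : ZMod k → ℂ) (i j : ZMod k) (ψ : ℂ → ℂ) (r : ℝ) :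
    PN (fun j => b (i + j)) (fun j => g (i + j)) j ψ r ↔ PN b g (i + j) ψ r := by
  constructor
  · intro h
    refine ⟨h.pos, h.diff, h.val, h.der, fun u hu hu0 l => ?_, fun u hu hu0 => ?_⟩
    · have := h.av u hu hu0 (-i + l)
      simpa using this
    · have := h.eq u hu hu0
      rwa [TR_BB] at this
  · intro h
    refine ⟨h.pos, h.diff, h.val, h.der, fun u hu hu0 l => h.av u hu hu0 (i + l),
      fun u hu hu0 => ?_⟩
    rw [TR_BB]
    exact h.eq u hu hu0

theorem TR : TR_stmt := by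
  intro n k _ c b g ψ R ε i h
  refine ⟨⟨h.hn, h.hk, h.hc, ⟨?_, ?_, ?_⟩, ?_, ?_, h.hR, ?_⟩, TR_rho n k b i, TR_BB k b g i, ?_⟩
  · intro j₁ j₂ hj
    exact add_left_cancel (h.cyc.inj hj)
  · intro j
    have := h.cyc.step (i + j)
    rw [add_assoc] at this
    exact this
  · intro j
    exact h.cyc.ne0 (i + j)
  · rw [TR_rho]
    exact h.rho1
  · intro j
    refine ⟨(TR_PN k b g i j _ 1).mpr (h.mx (i + j)).pn, fun r hr ψ' hψ' => ?_⟩
    exact (h.mx (i + j)).mx r hr ψ' ((TR_PN k b g i j _ r).mp hψ')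
  · rw [TR_rho]
    have h1 : (fun z => ‖er n c (fun j => b (i + j)) (fun j => g (i + j)) z‖) =
        fun z => ‖er n c b g z‖ := by
      funext z
      rw [TR_er]
    rw [h1]
    exact h.hE
  · intro χ y r
    unfold Flat
    simp only [TR_nat]

end MPS
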